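import Pool.Agent.N343.TC.Stm

/-! Final assembly (project TC, MP_8dfb46_an). -/

set_option autoImplicit false

open MeasureTheory Set Filter Topology Metric Complex
open scoped ContDiff RealInnerProductSpace ComplexConjugate

namespace Pool.Agent.N343.TC

theorem Conf.mono {f : ℂ → ℂ} {r s : ℝ} (h : Conf f s) (h1 : 1 < r) (h2 : r ≤ s) : Conf f r := by
  obtain ⟨_, hd, hi, hn⟩ := h
  have hs : ball (0 : ℂ) r ⊆ ball 0 s := ball_subset_ball h2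
  exact ⟨h1, hd.mono hs, hi.mono hs, fun w hw => hn w (hs hw)⟩

theorem mk_comp (k : ℕ) (W : ℂ → ℂ) (hR : (RR k) ^ k = 4 / 5) (w : ℂ) :
    (mk (RR k) k (HZ k W) w) ^ k = TT k W (w ^ k) ∧
    mk (RR k) k (HH k W) w = mk 1 k (AA k) (mk (RR k) k (HZ k W) w) := by
  have hR' : (RR k : ℂ) ^ k = 4 / 5 := by
    rw [← Complex.ofReal_pow, hR]; push_cast; ring
  have h1 : (mk (RR k) k (HZ k W) w) ^ k = TT k W (w ^ k) := by
    unfold mk TT
    rw [mul_pow, mul_pow, hR']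
  refine ⟨h1, ?_⟩
  have h2 : mk 1 k (AA k) (mk (RR k) k (HZ k W) w) =
      ((1 : ℝ) : ℂ) * mk (RR k) k (HZ k W) w * AA k ((mk (RR k) k (HZ k W) w) ^ k) := rfl
  rw [h2, h1]
  unfold mk HH
  push_cast
  ring

theorem rpow_le_rr (k : ℕ) : (11 / 10 : ℝ) ^ ((1 : ℝ) / k) ≤ rr k := by
  unfold rr
  exact Real.rpow_le_rpow (by norm_num) (by norm_num) (by positivity)

theorem convD (hC : S_CONV) (hDer : S_DER) (hSand : S_SAND) (hInj : S_INJ) (C : ℝ) :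
    ∃ K₀ : ℕ, ∀ k : ℕ, K₀ ≤ k → ∀ (R : ℝ) (H : ℂ → ℂ), 0 < R → Near (-(129 / 160)) C k H →
      Convex ℝ (mk R k H '' ball 0 1) := by
  obtain ⟨K1, h1⟩ := hDer C
  obtain ⟨K2, h2⟩ := hSand (-(129 / 160)) C
  obtain ⟨K3, h3⟩ := hInj (-(129 / 160)) C
  refine ⟨max K1 (max K2 K3), fun k hk R H hR hN => ?_⟩
  obtain ⟨hr, s, hs1, hs2⟩ := h2 k (le_trans (le_trans (le_max_left _ _) (le_max_right _ _)) hk)
    R H hR hN
  have hconf := h3 k (le_trans (le_trans (le_max_right _ _) (le_max_right _ _)) hk) R H hR hN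
  exact hC _ _ (ball 0 s) (hconf.mono hr (rpow_le_rr k))
    (h1 k (le_trans (le_max_left _ _) hk) R H hR hN) (convex_ball _ _) isOpen_ball hs1 hs2

theorem vol_lt {D Ω : Set ℂ} (hD : closure D ⊆ Ω) (hO : IsOpen Ω) (hB : Bornology.IsBounded Ω)
    (hne : Ω.Nonempty) : volume D < volume Ω ∧ volume Ω < ⊤ := by
  have hfin : volume Ω < ⊤ := hB.measure_lt_top
  refine ⟨?_, hfin⟩
  have hdiff : (Ω \ closure D).Nonempty := by
    by_contra hcon
    rw [not_nonempty_iff_eq_empty, sdiff_eq_empty] at hcon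
    have heq : Ω = closure D := hcon.antisymm hD
    have hclopen : IsClopen Ω := ⟨by rw [heq]; exact isClosed_closure, hO⟩
    have huniv : Ω = univ := hclopen.eq_univ hne
    rw [huniv] at hB
    exact (NormedSpace.unbounded_univ ℝ ℂ) hB
  have hopen : IsOpen (Ω \ closure D) := hO.sdiff isClosed_closure
  have hpos : 0 < volume (Ω \ closure D) := hopen.measure_pos volume hdiff
  have hDfin : volume (closure D) ≠ ⊤ := ((measure_mono hD).trans_lt hfin).ne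
  have hsum : volume (Ω \ closure D) = volume Ω - volume (closure D) :=
    measure_sdiff hD isClosed_closure.measurableSet.nullMeasurableSet hDfin
  rw [hsum] at hpos
  exact (measure_mono subset_closure).trans_lt (tsub_pos_iff_lt.1 hpos)

theorem final (hSeq : S_SEQ) (hCore : S_CORE) (hHN : S_HN) (hInj : S_INJ) (hConv : S_CONV)
    (hDer : S_DER) (hSand : S_SAND) (hNC : S_NC) (hOut : S_OUT) (hInv : S_INV) (hSmd : S_SMD)
    (hTrans : S_TRANS) :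
    ∃ D : Set ℂ, Convex ℝ D ∧ IsSmoothDomain D ∧ ∃ V₀ : ℝ, volume D < ENNReal.ofReal V₀ ∧
      ∃ Ω : Set ℂ, IsOuterSolution (1 / 5) D V₀ Ω ∧ ¬ Convex ℝ Ω := by
  obtain ⟨C, K1, hcore⟩ := hCore
  obtain ⟨C', K2, hhn⟩ := hHN C
  obtain ⟨K3, hinj1⟩ := hInj (3 / 2) C'
  obtain ⟨K4, hinj2⟩ := hInj (-(129 / 160)) C'
  obtain ⟨K5, hcv⟩ := convD hConv hDer hSand hInj C'
  obtain ⟨C2, _, hseq⟩ := hSeq
  obtain ⟨k, hk1, hk2, hk3, hk4, hk5, hk6⟩ : ∃ k : ℕ, K1 ≤ k ∧ K2 ≤ k ∧ K3 ≤ k ∧ K4 ≤ k ∧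
      K5 ≤ k ∧ 6 ≤ k := ⟨K1 + K2 + K3 + K4 + K5 + 6, by omega, by omega, by omega, by omega,
        by omega, by omega⟩
  obtain ⟨_, _, _, _, _, _, _, hRpos, hR1, hRk, hrr1, hrrk⟩ := hseq k hk6
  obtain ⟨W, Y, hWd, hYd, hWb, hWY⟩ := hcore k hk1
  obtain ⟨hNZ, hNH, hNA, hZ⟩ := hhn k hk2 W hWd hWb
  set φ : ℂ → ℂ := mk 1 k (AA k) with hφ
  set χ : ℂ → ℂ := mk (RR k) k (HH k W) with hχ
  set Z : ℂ → ℂ := mk (RR k) k (HZ k W) with hZdef
  have hk0 : k ≠ 0 := by omega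
  have cφ : Conf φ (rr k) := hinj1 k hk3 1 (AA k) one_pos hNA
  have cχ : Conf χ (rr k) := hinj2 k hk4 (RR k) (HH k W) hRpos hNH
  have hcomp : ∀ w, χ w = φ (Z w) := fun w => (mk_comp k W hRk w).2
  have hpow : ∀ w, (Z w) ^ k = TT k W (w ^ k) := fun w => (mk_comp k W hRk w).1
  have hχ0 : χ 0 = 0 := by rw [hχ]; unfold mk; simp
  have hφ0 : φ 0 = 0 := by rw [hφ]; unfold mk; simp
  have hsub1 : closedBall (0 : ℂ) 1 ⊆ ball 0 (rr k) := closedBall_subset_ball hrr1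
  have hsub2 : ball (0 : ℂ) 1 ⊆ ball 0 (rr k) := ball_subset_ball hrr1.le
  obtain ⟨hφsm, hφfr, hφcl, hφn⟩ := hSmd φ _ cφ
  obtain ⟨hχsm, hχfr, hχcl, hχn⟩ := hSmd χ _ cχ
  obtain ⟨hφo, gφ, hgφd, hgφ⟩ := hInv φ _ cφ
  obtain ⟨hχo, gχ, hgχd, hgχ⟩ := hInv χ _ cχ
  obtain ⟨hPPd, hPP⟩ := hOut k hk6
  have hcont : χ '' closedBall 0 1 ⊆ φ '' ball 0 1 := by
    rintro _ ⟨w, hw, rfl⟩
    exact ⟨Z w, (hZ w hw).1, (hcomp w).symm⟩
  have hpow_mem : ∀ w ∈ ball (0 : ℂ) (rr k), w ^ k ∈ ball (0 : ℂ) 2 := by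
    intro w hw
    rw [mem_ball_zero_iff] at hw ⊢
    rw [norm_pow]
    have : ‖w‖ ^ k < (rr k) ^ k := pow_lt_pow_left₀ hw (norm_nonneg _) hk0
    rw [hrrk] at this
    linarith
  have hsol : IsSolution (1 / 5) (χ '' ball 0 1) (φ '' ball 0 1) := by
    refine hTrans (1 / 5) (qq k) φ χ (rr k) (rr k) (by norm_num) cφ cχ hcont
      (fun z => PP k (gφ z)) (fun z => Y ((gχ z) ^ k) + (c1 k : ℂ))
      ((φ '' ball 0 (rr k)) \ {0}) (χ '' ball 0 (rr k)) (hφo.sdiff isClosed_singleton) hχo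
      ?_ ?_ ?_ ?_ ?_ ?_
    · rw [hφcl]
      rintro z ⟨⟨ζ, hζ, rfl⟩, hz⟩
      refine ⟨⟨ζ, hsub1 hζ, rfl⟩, fun h0 => hz ?_⟩
      rw [mem_singleton_iff] at h0
      rw [h0]
      exact ⟨0, by simp, hχ0⟩
    · rw [hχcl]
      exact image_mono hsub1
    · rintro z ⟨⟨ζ, hζ, rfl⟩, hz⟩
      have h1 : gφ (φ ζ) = ζ := (hgφ ζ hζ).1
      have hζ0 : ζ ≠ 0 := by
        rintro rfl
        exact hz (by rw [hφ0]; exact mem_singleton _)
      have h2 : DifferentiableAt ℂ gφ (φ ζ) :=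
        hgφd.differentiableAt (hφo.mem_nhds ⟨ζ, hζ, rfl⟩)
      have h3 : DifferentiableAt ℂ (PP k) (gφ (φ ζ)) := by rw [h1]; exact hPPd ζ hζ0
      exact (h3.comp (φ ζ) h2).differentiableWithinAt
    · rintro z ⟨w, hw, rfl⟩
      have h1 : gχ (χ w) = w := (hgχ w hw).1
      have h2 : DifferentiableAt ℂ gχ (χ w) :=
        hgχd.differentiableAt (hχo.mem_nhds ⟨w, hw, rfl⟩)
      have h3 : DifferentiableAt ℂ Y ((gχ (χ w)) ^ k) := by
        rw [h1]; exact hYd.differentiableAt (isOpen_ball.mem_nhds (hpow_mem w hw))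
      have h4 : DifferentiableAt ℂ (fun z => Y ((gχ z) ^ k)) (χ w) :=
        h3.comp (χ w) (h2.pow k)
      exact (h4.add_const _).differentiableWithinAt
    · rw [hχfr]
      rintro z ⟨w, hw, rfl⟩
      have hw1 : ‖w‖ = 1 := by simpa using hw
      have hwc : w ∈ closedBall (0 : ℂ) 1 := by simp [hw1]
      have h1 : gχ (χ w) = w := (hgχ w (hsub1 hwc)).1
      have h2 : gφ (χ w) = Z w := by
        rw [hcomp]; exact (hgφ (Z w) (hsub2 (hZ w hwc).1)).1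
      have hx : ‖w ^ k‖ = 1 := by rw [norm_pow, hw1, one_pow]
      obtain ⟨e1, e2⟩ := hWY (w ^ k) hx
      have hnorm : ‖χ w‖ ^ 2 = ‖(RR k : ℂ) * HH k W (w ^ k)‖ ^ 2 := by
        rw [hχ]; unfold mk
        rw [norm_mul, norm_mul, hw1, mul_one, norm_mul]
      have hP : PP k (gφ (χ w)) = PiT k (TT k W (w ^ k)) + (c1 k : ℂ) := by
        rw [h2]; unfold PP; rw [hpow]
      constructor
      · change (Y ((gχ (χ w)) ^ k) + (c1 k : ℂ)).re = (PP k (gφ (χ w))).re + _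
        rw [hP, h1, hnorm]
        simp only [Complex.add_re, Complex.ofReal_re]
        rw [e1]
        ring
      · change (1 / 5) * (Y ((gχ (χ w)) ^ k) + (c1 k : ℂ)).im = (PP k (gφ (χ w))).im
        rw [hP, h1]
        simp only [Complex.add_im, Complex.ofReal_im, add_zero]
        exact e2
    · intro ζ hζ
      have hζ1 : ‖ζ‖ = 1 := by simpa using hζ
      have hζc : ζ ∈ ball (0 : ℂ) (rr k) := hsub1 (by simp [hζ1])
      obtain ⟨h1, h1'⟩ := hgφ ζ hζc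
      obtain ⟨e1, e2⟩ := hPP ζ hζ1
      have hζ0 : ζ ≠ 0 := by
        rintro rfl
        simp at hζ1
      refine ⟨?_, ?_⟩
      · change -‖φ ζ‖ ^ 2 / 4 + (PP k (gφ (φ ζ))).re = 0
        rw [h1]; exact e1
      · have h2 : HasDerivAt gφ (deriv φ ζ)⁻¹ (φ ζ) := by
          rw [← h1']
          exact (hgφd.differentiableAt (hφo.mem_nhds ⟨ζ, hζc, rfl⟩)).hasDerivAt
        have h3 : HasDerivAt (PP k) (deriv (PP k) ζ) (gφ (φ ζ)) := by
          rw [h1]; exact (hPPd ζ hζ0).hasDerivAt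
        have h4 : HasDerivAt (fun z => PP k (gφ z)) (deriv (PP k) ζ * (deriv φ ζ)⁻¹) (φ ζ) :=
          h3.comp (φ ζ) h2
        rw [h4.deriv, e2]
        have hne : deriv φ ζ ≠ 0 := cφ.2.2.2 ζ hζc
        rw [mul_comm (deriv φ ζ) _, mul_assoc, mul_inv_cancel₀ hne, mul_one]
  have hvol := vol_lt hsol.2.2.1 hφsm.1 hφsm.2.2.1 hφsm.2.1.nonempty
  refine ⟨χ '' ball 0 1, hcv k hk5 (RR k) (HH k W) hRpos hNH, hχsm, (volume (φ '' ball 0 1)).toReal,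
    ?_, φ '' ball 0 1, ⟨hsol, ?_⟩, hNC k hk6 cφ⟩
  · rw [ENNReal.ofReal_toReal hvol.2.ne]; exact hvol.1
  · rw [ENNReal.ofReal_toReal hvol.2.ne]

end Pool.Agent.N343.TC
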