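import Mathlib

/-! The two-phase overdetermined problem in the plane: definitions (MP_8dfb46_an). -/

set_option autoImplicit false

open MeasureTheory Set Filter Topology Metric Complex
open scoped ContDiff RealInnerProductSpace ComplexConjugate

namespace Pool.Agent.N343.TC

/-- `n` is the outward unit normal of the open set `Ω` of the plane at the point `x`, near which
the boundary of `Ω` is smooth: `Ω` is given near `x` as `{ρ < 0}` with `ρ` smooth and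
`∇ρ(x) = t n`, `t > 0`. -/
def IsOuterNormal (Ω : Set ℂ) (x n : ℂ) : Prop :=
  ‖n‖ = 1 ∧ ∃ (U : Set ℂ) (ρ : ℂ → ℝ), IsOpen U ∧ x ∈ U ∧ ContDiff ℝ ∞ ρ ∧
    Ω ∩ U = {y | y ∈ U ∧ ρ y < 0} ∧ ∃ t : ℝ, 0 < t ∧ gradient ρ x = t • n

/-- a domain of the plane: bounded, connected, open, with smooth boundary -/
def IsSmoothDomain (Ω : Set ℂ) : Prop :=
  IsOpen Ω ∧ IsConnected Ω ∧ Bornology.IsBounded Ω ∧ ∀ x ∈ frontier Ω, ∃ n, IsOuterNormal Ω x n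

/-- the conductivity: `σc` in the core `D`, `1` outside -/
noncomputable def cond (σc : ℝ) (D : Set ℂ) (x : ℂ) : ℝ := by
  classical exact if x ∈ D then σc else 1

/-- `(D, Ω)` is a solution of the overdetermined problem with conductivity `σc`: there is a
Lipschitz function `u` on the plane, zero outside `Ω`, with `-div(σ∇u) = 1` in `Ω` in the weak
sense, whose outward normal derivative is the same number `c` at all boundary points of `Ω` -/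
def IsSolution (σc : ℝ) (D Ω : Set ℂ) : Prop :=
  IsSmoothDomain D ∧ IsSmoothDomain Ω ∧ closure D ⊆ Ω ∧ ∃ (c : ℝ) (u : ℂ → ℝ),
    (∃ L, LipschitzWith L u) ∧ (∀ x, x ∉ Ω → u x = 0) ∧
    (∀ f : ℂ → ℝ, ContDiff ℝ ∞ f → HasCompactSupport f → tsupport f ⊆ Ω →
      ∫ x in Ω, cond σc D x * inner ℝ (gradient u x) (gradient f x) = ∫ x in Ω, f x) ∧
    ∀ x ∈ frontier Ω, ∃ n, IsOuterNormal Ω x n ∧
      Tendsto (fun t : ℝ => (u x - u (x - t • n)) / t) (𝓝[>] 0) (𝓝 c)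

/-- `Ω` solves the outer problem for the core `D` and the number `V₀` -/
def IsOuterSolution (σc : ℝ) (D : Set ℂ) (V₀ : ℝ) (Ω : Set ℂ) : Prop :=
  IsSolution σc D Ω ∧ volume Ω = ENNReal.ofReal V₀

/-! ### the explicit outer domains -/

noncomputable def cc (k : ℕ) : ℝ := 3 / (4 * k)
noncomputable def aa (k : ℕ) : ℝ := 2 * cc k / (k + 1)
noncomputable def bb (k : ℕ) : ℝ := (cc k) ^ 2 / (2 * k + 1)
noncomputable def qq (k : ℕ) : ℝ :=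
  (1 + 2 * aa k * cc k + bb k * (cc k) ^ 2) / (2 * (1 + (cc k) ^ 2))
/-- `R` with `R ^ k = 4/5` -/
noncomputable def RR (k : ℕ) : ℝ := (4 / 5 : ℝ) ^ ((1 : ℝ) / k)
/-- a radius `> 1` with `rr k ^ k = 3/2` -/
noncomputable def rr (k : ℕ) : ℝ := (3 / 2 : ℝ) ^ ((1 : ℝ) / k)
/-- `φ(ζ) = ζ A(ζ^k)` -/
noncomputable def AA (k : ℕ) (t : ℂ) : ℂ := 1 + (aa k : ℂ) * t + (bb k : ℂ) * t ^ 2

/-- the function `w ↦ R w H(w^k)` -/
noncomputable def mk (R : ℝ) (k : ℕ) (H : ℂ → ℂ) (w : ℂ) : ℂ := (R : ℂ) * w * H (w ^ k)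

/-- the outer complex potential, as a function of `t = ζ^k` -/
noncomputable def PiT (k : ℕ) (t : ℂ) : ℂ :=
  (1 / (k : ℂ)) * ((((cc k) ^ 2 / 4 : ℝ) : ℂ) * t ^ 2
    + ((cc k + aa k * (cc k) ^ 2 / 2 - qq k * cc k : ℝ) : ℂ) * t
    - ((aa k / 2 + bb k * cc k - qq k * cc k : ℝ) : ℂ) * t⁻¹
    - ((bb k / 4 : ℝ) : ℂ) * (t⁻¹) ^ 2)

noncomputable def c1 (k : ℕ) : ℝ := (1 + aa k + bb k) ^ 2 / 4 - (PiT k 1).re

/-- the outer complex potential `P ∘ φ` -/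
noncomputable def PP (k : ℕ) (ζ : ℂ) : ℂ := PiT k (ζ ^ k) + (c1 k : ℂ)

/-! ### the core -/

noncomputable def HZ (k : ℕ) (W : ℂ → ℂ) (x : ℂ) : ℂ := 1 + W x / (k : ℂ) ^ 2
noncomputable def TT (k : ℕ) (W : ℂ → ℂ) (x : ℂ) : ℂ := (4 / 5 : ℂ) * x * (HZ k W x) ^ k
noncomputable def HH (k : ℕ) (W : ℂ → ℂ) (x : ℂ) : ℂ := HZ k W x * AA k (TT k W x)

/-- `H = 1 + λ x / k² + O(k⁻³)` on the disc of radius 2 -/
def Near (lam C : ℝ) (k : ℕ) (H : ℂ → ℂ) : Prop :=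
  DifferentiableOn ℂ H (ball 0 2) ∧
    ∀ x ∈ ball (0 : ℂ) 2, ‖(k : ℂ) ^ 2 * (H x - 1) - (lam : ℂ) * x‖ ≤ C / k

/-- `f` is conformal on a disc of radius `r > 1` -/
def Conf (f : ℂ → ℂ) (r : ℝ) : Prop :=
  1 < r ∧ DifferentiableOn ℂ f (ball 0 r) ∧ InjOn f (ball 0 r) ∧
    ∀ w ∈ ball (0 : ℂ) r, deriv f w ≠ 0

/-! ### the Wiener algebra of the annulus `1/2 ≤ |z| ≤ 2` -/

/-- the weighted Wiener algebra: `T` is the function `z`, `S` is `1/z`, `P` is the projection to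
the powers `z^n`, `n ≥ 1`, `st` is the reflection `f ↦ conj (f (1 / conj z))`, `ev z` the value at
a point of the unit circle, `pf x` the extension of `P x` to the disc of radius `2` -/
structure WA (B : Type) [NormedCommRing B] [NormedAlgebra ℂ B] where
  T : B
  S : B
  ST : S * T = 1
  one_norm : ‖(1 : B)‖ = 1
  T_norm : ‖T‖ ≤ 2
  S_norm : ‖S‖ ≤ 2
  P : B →ₗ[ℂ] B
  P_norm : ∀ x, ‖P x‖ ≤ ‖x‖
  P_P : ∀ x, P (P x) = P x
  P_T : P T = T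
  P_S : P S = 0
  P_one : P 1 = 0
  st : B → B
  st_add : ∀ x y, st (x + y) = st x + st y
  st_smul : ∀ (c : ℂ) (x : B), st (c • x) = conj c • st x
  st_mul : ∀ x y, st (x * y) = st x * st y
  st_st : ∀ x, st (st x) = x
  st_T : st T = S
  st_norm : ∀ x, ‖st x‖ ≤ ‖x‖
  P_st_P : ∀ x, P (st (P x)) = 0
  c0 : B → ℂ
  dec : ∀ x, x = P x + c0 x • (1 : B) + st (P (st x))
  ev : ℂ → B →ₐ[ℂ] ℂ
  ev_T : ∀ z : ℂ, ‖z‖ = 1 → ev z T = z
  ev_st : ∀ z : ℂ, ‖z‖ = 1 → ∀ x, ev z (st x) = conj (ev z x)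
  pf : B → ℂ → ℂ
  pf_diff : ∀ x, DifferentiableOn ℂ (pf x) (ball 0 2)
  pf_bd : ∀ x, ∀ z ∈ ball (0 : ℂ) 2, ‖pf x z‖ ≤ ‖x‖
  pf_sub : ∀ x y, ∀ z ∈ ball (0 : ℂ) 2, pf (x - y) z = pf x z - pf y z
  pf_smulT : ∀ (c : ℂ), ∀ z ∈ ball (0 : ℂ) 2, pf (c • T) z = c * z
  pf_ev : ∀ (x : B) (z : ℂ), ‖z‖ = 1 → pf x z = ev z (P x)

section
variable {B : Type} [NormedCommRing B] [NormedAlgebra ℂ B]

/-- of order `k^{-m}`, together with the Lipschitz constant, on the ball of radius 6 -/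
def Sm (m : ℕ) (f : ℕ → B → B) : Prop :=
  ∃ C : ℝ, 0 ≤ C ∧ ∀ k : ℕ, 6 ≤ k → ∀ W W' : B, ‖W‖ ≤ 6 → ‖W'‖ ≤ 6 →
    ‖f k W‖ ≤ C / (k : ℝ) ^ m ∧ ‖f k W - f k W'‖ ≤ C / (k : ℝ) ^ m * ‖W - W'‖

noncomputable def xx (k : ℕ) (W : B) : B := (((k : ℂ) ^ 2)⁻¹) • W
noncomputable def GG (k : ℕ) (W : B) : B := Ring.inverse (1 + xx k W)
noncomputable def th (A : WA B) (k : ℕ) (W : B) : B := (4 / 5 : ℂ) • (A.T * (1 + xx k W) ^ k)
noncomputable def th' (A : WA B) (k : ℕ) (W : B) : B := (5 / 4 : ℂ) • (A.S * (GG k W) ^ k)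
noncomputable def AAB (k : ℕ) (t : B) : B := 1 + (aa k : ℂ) • t + (bb k : ℂ) • t ^ 2

/-- `k²` times the outer potential on the boundary of the core -/
noncomputable def XB (A : WA B) (k : ℕ) (W : B) : B :=
  (k : ℂ) • ((((cc k) ^ 2 / 4 : ℝ) : ℂ) • (th A k W) ^ 2
    + ((cc k + aa k * (cc k) ^ 2 / 2 - qq k * cc k : ℝ) : ℂ) • th A k W
    - ((aa k / 2 + bb k * cc k - qq k * cc k : ℝ) : ℂ) • th' A k W
    - ((bb k / 4 : ℝ) : ℂ) • (th' A k W) ^ 2)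

/-- `k²` times `|z|²` on the boundary of the core -/
noncomputable def MB (A : WA B) (k : ℕ) (W : B) : B :=
  ((k : ℂ) ^ 2 * (RR k : ℂ) ^ 2) • ((1 + xx k W) * A.st (1 + xx k W) *
    (AAB k (th A k W) * A.st (AAB k (th A k W))))

noncomputable def r1 (A : WA B) (k : ℕ) (W : B) : B :=
  XB A k W - (3 / 8 : ℂ) • ((4 / 5 : ℂ) • A.T + (5 / 4 : ℂ) • A.S)

noncomputable def r2 (A : WA B) (k : ℕ) (W : B) : B :=
  MB A k W - ((k : ℂ) ^ 2 * (RR k : ℂ) ^ 2) • (1 : B) - W - A.st W - (6 / 5 : ℂ) • (A.T + A.S)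

end

end Pool.Agent.N343.TC
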