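import Pool.Agent.N343.TC.Defs

set_option autoImplicit false

/-!
Nine points in the three-dimensional space.
-/

namespace Pool.Agent.N343.TC

open Set

/-- the nine points -/
def P : Fin 9 → (Fin 3 → ℤ) := ![![1, 0, 0], ![0, 1, 0], ![0, 0, 1], ![0, -1, -1], ![-1, 0, -1],
  ![-1, -1, 0], ![1, -1, -1], ![-1, 1, -1], ![-1, -1, 1]]

/-- the nine points as real points -/
def pt (i : Fin 9) : Fin 3 → ℝ := fun k => (P i k : ℝ)

/-- the set of the nine points -/
def S : Set (Fin 3 → ℝ) := Set.range pt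

theorem P_injective : Function.Injective P := by decide

theorem pt_injective : Function.Injective pt := by
  intro i j h
  apply P_injective
  funext k
  have := congrFun h k
  simp only [pt] at this
  exact_mod_cast this

theorem ncard_S : S.ncard = 9 := by
  rw [S, ← Set.image_univ, Set.ncard_image_of_injective _ pt_injective, Set.ncard_univ,
    Nat.card_eq_fintype_card, Fintype.card_fin]

/-- the six triples with the origin in their convex hull, with weights -/
def F : Fin 6 → (Fin 3 → Fin 9) := ![![1, 2, 3], ![0, 2, 4], ![0, 1, 5], ![6, 7, 2], ![6, 8, 1],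
  ![7, 8, 0]]

/-- weights -/
def w : Fin 6 → (Fin 3 → ℤ) := ![![1, 1, 1], ![1, 1, 1], ![1, 1, 1], ![1, 1, 2], ![1, 1, 2],
  ![1, 1, 2]]

theorem F_sum : ∀ (j : Fin 6) (k : Fin 3), ∑ i, w j i * P (F j i) k = 0 := by decide

theorem w_pos : ∀ (j : Fin 6) (i : Fin 3), 0 < w j i := by decide

/-- two points never meet all six triples -/
theorem hit : ∀ a b : Fin 9, ∃ j : Fin 6, ∀ i : Fin 3, F j i ≠ a ∧ F j i ≠ b := by decide

theorem zero_mem_hull (j : Fin 6) (C : Set (Fin 3 → ℝ)) (hC : Convex ℝ C)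
    (h : ∀ i, pt (F j i) ∈ C) : (0 : Fin 3 → ℝ) ∈ C := by
  have hs : (0 : ℝ) < ∑ i, (w j i : ℝ) :=
    Finset.sum_pos (fun i _ => by exact_mod_cast w_pos j i) ⟨0, Finset.mem_univ _⟩
  have h1 := hC.sum_mem (t := Finset.univ) (w := fun i => (w j i : ℝ) / ∑ i, (w j i : ℝ))
    (z := fun i => pt (F j i)) (fun i _ => by
      have : (0 : ℝ) < w j i := by exact_mod_cast w_pos j i
      positivity) (by rw [← Finset.sum_div, div_self hs.ne']) (fun i _ => h i)
  convert h1 using 1
  funext k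
  rw [Finset.sum_apply]
  simp only [Pi.smul_apply, smul_eq_mul, Pi.zero_apply, pt]
  have h2 : ∑ i, (w j i : ℝ) / (∑ i, (w j i : ℝ)) * (P (F j i) k : ℝ) =
      (∑ i, (w j i : ℝ) * (P (F j i) k : ℝ)) / (∑ i, (w j i : ℝ)) := by
    rw [Finset.sum_div]
    exact Finset.sum_congr rfl fun i _ => by ring
  rw [h2]
  have h3 : ∑ i, (w j i : ℝ) * (P (F j i) k : ℝ) = 0 := by exact_mod_cast F_sum j k
  rw [h3, zero_div]

theorem zero_mem_core : (0 : Fin 3 → ℝ) ∈ core 2 S := by
  intro T hT hcard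
  obtain ⟨a, b, hab⟩ : ∃ a b : Fin 9, ∀ i, pt i ∈ T → i = a ∨ i = b := by
    classical
    let T' : Finset (Fin 9) := Finset.univ.filter fun i => pt i ∈ T
    have h1 : T'.card ≤ 2 := by
      refine le_trans ?_ hcard
      exact Finset.card_le_card_of_injOn pt (fun i hi => (Finset.mem_filter.1 hi).2)
        pt_injective.injOn
    have h2 : ∀ i, pt i ∈ T → i ∈ T' := fun i hi => Finset.mem_filter.2 ⟨Finset.mem_univ _, hi⟩
    generalize T' = T' at h1 h2
    have h3 : T'.card = 0 ∨ T'.card = 1 ∨ T'.card = 2 := by omega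
    rcases h3 with h3 | h3 | h3
    · rw [Finset.card_eq_zero] at h3
      exact ⟨0, 0, fun i hi => by have := h2 i hi; rw [h3] at this; simp at this⟩
    · obtain ⟨a, ha⟩ := Finset.card_eq_one.1 h3
      exact ⟨a, a, fun i hi => by have := h2 i hi; rw [ha] at this; left; simpa using this⟩
    · obtain ⟨a, b, -, ha⟩ := Finset.card_eq_two.1 h3
      exact ⟨a, b, fun i hi => by have := h2 i hi; rw [ha] at this; simpa using this⟩
  obtain ⟨j, hj⟩ := hit a b
  refine zero_mem_hull j _ (convex_convexHull ℝ _) fun i => subset_convexHull ℝ _ ?_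
  refine ⟨⟨_, rfl⟩, fun h => ?_⟩
  rcases hab _ h with h | h
  · exact (hj i).1 h
  · exact (hj i).2 h

theorem hull_le {C : Set (Fin 3 → ℝ)} {u : Fin 3 → ℝ} {b : ℝ} (h : ∀ x ∈ C, ∑ k, u k * x k ≤ b)
    {p : Fin 3 → ℝ} (hp : p ∈ convexHull ℝ C) : ∑ k, u k * p k ≤ b := by
  have hconv : Convex ℝ {x : Fin 3 → ℝ | ∑ k, u k * x k ≤ b} := by
    have : IsLinearMap ℝ fun x : Fin 3 → ℝ => ∑ k, u k * x k := by
      constructor
      · intro x y
        rw [← Finset.sum_add_distrib]
        exact Finset.sum_congr rfl fun k _ => by simp; ring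
      · intro c x
        rw [Finset.smul_sum]
        exact Finset.sum_congr rfl fun k _ => by simp; ring
    exact convex_halfSpace_le this b
  exact convexHull_min h hconv hp

/-- a colour different from two given ones -/
theorem third : ∀ a b : Fin 3, ∃ c, c ≠ a ∧ c ≠ b := by decide

/-- the points with a positive `k`-th coordinate -/
theorem positive : ∀ (k : Fin 3) (i : Fin 9), 0 < P i k →
    i = ![0, 1, 2] k ∨ i = ![6, 7, 8] k := by decide

theorem D_nonpos {p : Fin 3 → ℝ} (hp : p ∈ tverbergPoints 3 S) (k : Fin 3) : p k ≤ 0 := by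
  obtain ⟨f, hf⟩ := hp
  obtain ⟨c, hc1, hc2⟩ := third (f (pt (![0, 1, 2] k))) (f (pt (![6, 7, 8] k)))
  have := hull_le (u := Pi.single k 1) (b := 0) ?_ (hf c)
  · simpa [Pi.single_apply] using this
  · rintro x ⟨⟨i, rfl⟩, hx⟩
    have h1 : ∑ l, (Pi.single k 1 : Fin 3 → ℝ) l * pt i l = pt i k := by
      simp [Pi.single_apply]
    rw [h1]
    by_contra h
    have h2 : 0 < P i k := by
      have : (0 : ℝ) < (P i k : ℝ) := not_le.1 h
      exact_mod_cast this
    rcases positive k i h2 with h3 | h3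
    · rw [h3] at hx; exact hc1 hx.symm
    · rw [h3] at hx; exact hc2 hx.symm

/-- linear functionals that are negative on the points with a nonpositive coordinate, except for
one point -/
theorem except0 : ∀ i : Fin 9, i ≠ 0 → i ≠ 6 → i ≠ 2 → 10 * P i 0 - P i 1 + 2 * P i 2 < 0 := by
  decide

theorem except1a : ∀ i : Fin 9, i ≠ 1 → i ≠ 7 → i ≠ 2 → 10 * P i 1 - P i 0 + 2 * P i 2 < 0 := by
  decide

theorem except1b : ∀ i : Fin 9, i ≠ 1 → i ≠ 7 → i ≠ 0 → 10 * P i 1 + 2 * P i 0 - P i 2 < 0 := by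
  decide

theorem neg_hull {C : Set (Fin 3 → ℝ)} {u : Fin 3 → ℤ}
    (h : ∀ x ∈ C, ∃ i, x = pt i ∧ ∑ k, u k * P i k < 0) : (0 : Fin 3 → ℝ) ∉ convexHull ℝ C := by
  intro h0
  have := hull_le (u := fun k => (u k : ℝ)) (b := -1) ?_ h0
  · simp at this; linarith
  · intro x hx
    obtain ⟨i, rfl, hi⟩ := h x hx
    have h1 : ∑ k, u k * P i k ≤ -1 := by omega
    have h2 : ((∑ k, u k * P i k : ℤ) : ℝ) ≤ -1 := by exact_mod_cast h1
    simpa [pt] using h2

theorem zero_notMem : (0 : Fin 3 → ℝ) ∉ tverbergPoints 3 S := by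
  rintro ⟨f, hf⟩
  obtain ⟨c, hc1, hc2⟩ := third (f (pt 0)) (f (pt 6))
  obtain ⟨c', hc3, hc4⟩ := third (f (pt 1)) (f (pt 7))
  -- the point `2` has colour `c`
  have h1 : f (pt 2) = c := by
    by_contra h
    refine neg_hull (u := ![10, -1, 2]) ?_ (hf c)
    rintro x ⟨⟨i, rfl⟩, hx⟩
    refine ⟨i, rfl, ?_⟩
    have := except0 i (fun h' => by rw [h'] at hx; exact hc1 hx.symm)
      (fun h' => by rw [h'] at hx; exact hc2 hx.symm) (fun h' => by rw [h'] at hx; exact h hx)
    rw [Fin.sum_univ_three]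
    simp only [Matrix.cons_val_zero, Matrix.cons_val_one, Matrix.cons_val]
    linarith
  have h2 : f (pt 2) = c' := by
    by_contra h
    refine neg_hull (u := ![-1, 10, 2]) ?_ (hf c')
    rintro x ⟨⟨i, rfl⟩, hx⟩
    refine ⟨i, rfl, ?_⟩
    have := except1a i (fun h' => by rw [h'] at hx; exact hc3 hx.symm)
      (fun h' => by rw [h'] at hx; exact hc4 hx.symm) (fun h' => by rw [h'] at hx; exact h hx)
    rw [Fin.sum_univ_three]
    simp only [Matrix.cons_val_zero, Matrix.cons_val_one, Matrix.cons_val]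
    linarith
  have h3 : f (pt 0) = c' := by
    by_contra h
    refine neg_hull (u := ![2, 10, -1]) ?_ (hf c')
    rintro x ⟨⟨i, rfl⟩, hx⟩
    refine ⟨i, rfl, ?_⟩
    have := except1b i (fun h' => by rw [h'] at hx; exact hc3 hx.symm)
      (fun h' => by rw [h'] at hx; exact hc4 hx.symm) (fun h' => by rw [h'] at hx; exact h hx)
    rw [Fin.sum_univ_three]
    simp only [Matrix.cons_val_zero, Matrix.cons_val_one, Matrix.cons_val]
    linarith
  rw [h1] at h2
  rw [← h2] at h3
  exact hc1 h3.symm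

theorem zero_notMem_hull : (0 : Fin 3 → ℝ) ∉ convexHull ℝ (tverbergPoints 3 S) := by
  intro h0
  have hconv : Convex ℝ {x : Fin 3 → ℝ | ∑ k, x k < 0} := by
    have : IsLinearMap ℝ fun x : Fin 3 → ℝ => ∑ k, x k := by
      constructor
      · intro x y
        rw [← Finset.sum_add_distrib]
        rfl
      · intro c x
        rw [Finset.smul_sum]
        rfl
    exact convex_halfSpace_lt this 0
  have hsub : tverbergPoints 3 S ⊆ {x : Fin 3 → ℝ | ∑ k, x k < 0} := by
    intro p hp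
    have h1 := D_nonpos hp
    show ∑ k, p k < 0
    refine lt_of_le_of_ne (Finset.sum_nonpos fun k _ => h1 k) ?_
    intro h2
    apply zero_notMem
    have h3 : p = 0 := by
      funext k
      exact (Finset.sum_eq_zero_iff_of_nonpos fun k _ => h1 k).1 h2 k (Finset.mem_univ _)
    rw [← h3]; exact hp
  have := convexHull_min hsub hconv h0
  simp at this

/-- the easy inclusion -/
theorem hull_subset_core {d τ : ℕ} (hτ : 1 ≤ τ) (S : Set (Fin d → ℝ)) :
    convexHull ℝ (tverbergPoints τ S) ⊆ core (τ - 1) S := by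
  intro p hp T hT hcard
  refine convexHull_min ?_ (convex_convexHull ℝ _) hp
  rintro q ⟨f, hf⟩
  obtain ⟨c, hc⟩ : ∃ c, ∀ x ∈ T, f x ≠ c := by
    classical
    by_contra h
    push Not at h
    have h1 : (Finset.univ : Finset (Fin τ)) ⊆ T.image f := by
      intro c _
      obtain ⟨x, hx, hxc⟩ := h c
      exact Finset.mem_image.2 ⟨x, hx, hxc⟩
    have h2 := (Finset.card_le_card h1).trans Finset.card_image_le
    rw [Finset.card_univ, Fintype.card_fin] at h2
    omega
  refine convexHull_mono ?_ (hf c)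
  rintro x ⟨hx, hfx⟩
  exact ⟨hx, fun hxT => hc x hxT hfx⟩

end Pool.Agent.N343.TC
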