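import Pool.Agent.N343.TC.Defs

/-! Statements of the steps (project TC, MP_8dfb46_an). -/

set_option autoImplicit false

open MeasureTheory Set Filter Topology Metric Complex
open scoped ContDiff RealInnerProductSpace ComplexConjugate

namespace Pool.Agent.N343.TC

/-! ### the Wiener algebra and the fixed point -/

def S_WA : Prop := ∃ (B : Type) (_ : NormedCommRing B) (_ : NormedAlgebra ℂ B)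
    (_ : CompleteSpace B), Nonempty (WA B)

def S_POW : Prop := ∀ (B : Type) [NormedCommRing B] [NormedAlgebra ℂ B] [CompleteSpace B],
  ‖(1 : B)‖ = 1 →
  Sm 1 (fun k (W : B) => (1 + xx k W) ^ k - 1) ∧ Sm 1 (fun k (W : B) => (GG k W) ^ k - 1) ∧
  ∀ k : ℕ, 6 ≤ k → ∀ W : B, ‖W‖ ≤ 6 → GG k W * (1 + xx k W) = 1

def S_SEQ : Prop := ∃ C : ℝ, 0 ≤ C ∧ ∀ k : ℕ, 6 ≤ k →
  |(k : ℝ) ^ 2 * aa k - 3 / 2| ≤ C / k ∧ |(k : ℝ) ^ 2 * bb k| ≤ C / k ∧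
  |(k : ℝ) * ((cc k) ^ 2 / 4)| ≤ C / k ∧
  |(k : ℝ) * (cc k + aa k * (cc k) ^ 2 / 2 - qq k * cc k) - 3 / 8| ≤ C / k ∧
  |(k : ℝ) * (aa k / 2 + bb k * cc k - qq k * cc k) + 3 / 8| ≤ C / k ∧
  |(k : ℝ) * (bb k / 4)| ≤ C / k ∧ |(RR k) ^ 2 - 1| ≤ C / k ∧ 0 < RR k ∧ RR k < 1 ∧
  (RR k) ^ k = 4 / 5 ∧ 1 < rr k ∧ (rr k) ^ k = 3 / 2

def S_REM1 : Prop := ∀ (B : Type) [NormedCommRing B] [NormedAlgebra ℂ B] [CompleteSpace B]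
  (A : WA B), Sm 1 (r1 A)

def S_REM2 : Prop := ∀ (B : Type) [NormedCommRing B] [NormedAlgebra ℂ B] [CompleteSpace B]
  (A : WA B), Sm 1 (r2 A)

def S_FIX : Prop := ∀ (B : Type) [NormedCommRing B] [NormedAlgebra ℂ B] [CompleteSpace B]
  (A : WA B), Sm 1 (r1 A) → Sm 1 (r2 A) → ∃ (C : ℝ) (K₀ : ℕ), ∀ k : ℕ, K₀ ≤ k →
    ∃ W : B, ‖W‖ ≤ 6 ∧ A.P W = W ∧ ‖W - (-(321 / 160) : ℂ) • A.T‖ ≤ C / k ∧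
      A.P (XB A k W) - (3 / 2 : ℂ) • A.P (A.st (XB A k W)) = (1 / 2 : ℂ) • A.P (MB A k W)

def S_CORE : Prop := ∃ (C : ℝ) (K₀ : ℕ), ∀ k : ℕ, K₀ ≤ k → ∃ W Y : ℂ → ℂ,
  DifferentiableOn ℂ W (ball 0 2) ∧ DifferentiableOn ℂ Y (ball 0 2) ∧
  (∀ x ∈ ball (0 : ℂ) 2, ‖W x + (321 / 160 : ℂ) * x‖ ≤ C / k) ∧
  ∀ x : ℂ, ‖x‖ = 1 →
    (Y x).re = (PiT k (TT k W x)).re + ‖(RR k : ℂ) * HH k W x‖ ^ 2 ∧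
    (1 / 5) * (Y x).im = (PiT k (TT k W x)).im

/-! ### geometry of the two domains -/

def S_HN : Prop := ∀ C : ℝ, ∃ (C' : ℝ) (K₀ : ℕ), ∀ k : ℕ, K₀ ≤ k → ∀ W : ℂ → ℂ,
  DifferentiableOn ℂ W (ball 0 2) →
  (∀ x ∈ ball (0 : ℂ) 2, ‖W x + (321 / 160 : ℂ) * x‖ ≤ C / k) →
  Near (-(321 / 160)) C' k (HZ k W) ∧ Near (-(129 / 160)) C' k (HH k W) ∧
    Near (3 / 2) C' k (AA k) ∧
    ∀ w ∈ closedBall (0 : ℂ) 1, mk (RR k) k (HZ k W) w ∈ ball (0 : ℂ) 1 ∧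
      (w ≠ 0 → mk (RR k) k (HZ k W) w ≠ 0)

def S_INJ : Prop := ∀ lam C : ℝ, ∃ K₀ : ℕ, ∀ k : ℕ, K₀ ≤ k → ∀ (R : ℝ) (H : ℂ → ℂ), 0 < R →
  Near lam C k H → Conf (mk R k H) (rr k)

def S_CONV : Prop := ∀ (f : ℂ → ℂ) (r : ℝ) (K : Set ℂ), Conf f r →
  (∀ w ∈ ball (0 : ℂ) r, ‖w * deriv (deriv f) w‖ ≤ ‖deriv f w‖) →
  Convex ℝ K → IsOpen K → f '' ball 0 1 ⊆ K → K ⊆ f '' ball 0 r →
  Convex ℝ (f '' ball 0 1)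

/-- the derivative inequality, on the disc of radius `(11/10)^(1/k)` -/
def S_DER : Prop := ∀ C : ℝ, ∃ K₀ : ℕ, ∀ k : ℕ, K₀ ≤ k → ∀ (R : ℝ) (H : ℂ → ℂ), 0 < R →
  Near (-(129 / 160)) C k H → ∀ w ∈ ball (0 : ℂ) ((11 / 10 : ℝ) ^ ((1 : ℝ) / k)),
    ‖w * deriv (deriv (mk R k H)) w‖ ≤ ‖deriv (mk R k H) w‖

/-- a round disc between the images of two discs -/
def S_SAND : Prop := ∀ lam C : ℝ, ∃ K₀ : ℕ, ∀ k : ℕ, K₀ ≤ k → ∀ (R : ℝ) (H : ℂ → ℂ), 0 < R →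
  Near lam C k H → 1 < (11 / 10 : ℝ) ^ ((1 : ℝ) / k) ∧ ∃ s : ℝ,
    mk R k H '' ball 0 1 ⊆ ball 0 s ∧
    ball 0 s ⊆ mk R k H '' ball 0 ((11 / 10 : ℝ) ^ ((1 : ℝ) / k))

def S_NC : Prop := ∀ k : ℕ, 6 ≤ k → Conf (mk 1 k (AA k)) (rr k) →
  ¬ Convex ℝ (mk 1 k (AA k) '' ball 0 1)

def S_OUT : Prop := ∀ k : ℕ, 6 ≤ k → (∀ ζ : ℂ, ζ ≠ 0 → DifferentiableAt ℂ (PP k) ζ) ∧
  ∀ ζ : ℂ, ‖ζ‖ = 1 → -‖mk 1 k (AA k) ζ‖ ^ 2 / 4 + (PP k ζ).re = 0 ∧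
    deriv (PP k) ζ = deriv (mk 1 k (AA k)) ζ * (conj (mk 1 k (AA k) ζ) / 2 -
      (qq k : ℂ) * conj (ζ * deriv (mk 1 k (AA k)) ζ / (‖deriv (mk 1 k (AA k)) ζ‖ : ℂ)))

/-! ### conformal images, gluing, weak solutions -/

def S_INV : Prop := ∀ (f : ℂ → ℂ) (r : ℝ), Conf f r → IsOpen (f '' ball 0 r) ∧
  ∃ g : ℂ → ℂ, DifferentiableOn ℂ g (f '' ball 0 r) ∧
    ∀ w ∈ ball (0 : ℂ) r, g (f w) = w ∧ deriv g (f w) = (deriv f w)⁻¹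

def S_SMD : Prop := ∀ (f : ℂ → ℂ) (r : ℝ), Conf f r →
  IsSmoothDomain (f '' ball 0 1) ∧ frontier (f '' ball 0 1) = f '' sphere 0 1 ∧
  closure (f '' ball 0 1) = f '' closedBall 0 1 ∧
  ∀ w ∈ sphere (0 : ℂ) 1,
    IsOuterNormal (f '' ball 0 1) (f w) (w * deriv f w / (‖deriv f w‖ : ℂ))

def S_NULL : Prop := ∀ (f : ℂ → ℂ) (r : ℝ), Conf f r → volume (f '' sphere 0 1) = 0

def S_GRAD : Prop := ∀ (P : ℂ → ℂ) (z : ℂ) (κ : ℝ), DifferentiableAt ℂ P z →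
  HasGradientAt (fun w : ℂ => -κ * ‖w‖ ^ 2 + (P w).re) (-(2 * κ : ℂ) * z + conj (deriv P z)) z ∧
  HasGradientAt (fun w : ℂ => (P w).im) (I * conj (deriv P z)) z

def S_GLUE : Prop := ∀ (K₁ K₂ U₁ U₂ : Set ℂ) (g₁ g₂ g : ℂ → ℝ), IsCompact K₁ → IsCompact K₂ →
  IsOpen U₁ → IsOpen U₂ → K₁ ⊆ U₁ → K₂ ⊆ U₂ → ContDiffOn ℝ 1 g₁ U₁ → ContDiffOn ℝ 1 g₂ U₂ →
  EqOn g g₁ K₁ → EqOn g g₂ K₂ → K₁ ∩ K₂ ⊆ interior (K₁ ∪ K₂) →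
  ∃ L, LipschitzOnWith L g (K₁ ∪ K₂)

def S_EXT : Prop := ∀ (K : Set ℂ) (g : ℂ → ℝ) (L : NNReal), IsClosed K →
  LipschitzOnWith L g K → (∀ x ∈ frontier K, g x = 0) → (∀ x, x ∉ K → g x = 0) →
  LipschitzWith L g

def S_WK : Prop := ∀ (σ : ℝ) (D Ω : Set ℂ) (u h : ℂ → ℝ) (L L' : NNReal), IsOpen Ω →
  Bornology.IsBounded Ω → LipschitzWith L u → LipschitzOnWith L' h (closure Ω) →
  (∀ᵐ x : ℂ, x ∈ Ω → DifferentiableAt ℝ u x ∧ DifferentiableAt ℝ h x ∧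
    (cond σ D x) • gradient u x = (-(1 / 2) : ℝ) • x - I * gradient h x) →
  ∀ f : ℂ → ℝ, ContDiff ℝ ∞ f → HasCompactSupport f → tsupport f ⊆ Ω →
    ∫ x in Ω, cond σ D x * inner ℝ (gradient u x) (gradient f x) = ∫ x in Ω, f x

def S_ND : Prop := ∀ (Ω V : Set ℂ) (x n : ℂ) (u v : ℂ → ℝ) (c : ℝ), IsOuterNormal Ω x n →
  x ∈ frontier Ω → IsOpen V → x ∈ V → EqOn u v (V ∩ closure Ω) → HasGradientAt v (c • n) x →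
  Tendsto (fun t : ℝ => (u x - u (x - t • n)) / t) (𝓝[>] 0) (𝓝 c)

def S_TRANS : Prop := ∀ (σ q : ℝ) (φ χ : ℂ → ℂ) (r₁ r₂ : ℝ), 0 < σ → Conf φ r₁ → Conf χ r₂ →
  χ '' closedBall 0 1 ⊆ φ '' ball 0 1 →
  ∀ (P Q : ℂ → ℂ) (UP UQ : Set ℂ), IsOpen UP → IsOpen UQ →
  closure (φ '' ball 0 1) \ (χ '' ball 0 1) ⊆ UP → closure (χ '' ball 0 1) ⊆ UQ →
  DifferentiableOn ℂ P UP → DifferentiableOn ℂ Q UQ →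
  (∀ z ∈ frontier (χ '' ball 0 1),
    (Q z).re = (P z).re + (1 - σ) / (4 * σ) * ‖z‖ ^ 2 ∧ σ * (Q z).im = (P z).im) →
  (∀ ζ ∈ sphere (0 : ℂ) 1, -‖φ ζ‖ ^ 2 / 4 + (P (φ ζ)).re = 0 ∧
    deriv P (φ ζ) = conj (φ ζ) / 2 - (q : ℂ) * conj (ζ * deriv φ ζ / (‖deriv φ ζ‖ : ℂ))) →
  IsSolution σ (χ '' ball 0 1) (φ '' ball 0 1)

end Pool.Agent.N343.TC
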